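import Pool.Agent.TH133.MZ.Level

/-!
# MP_301213_nt: Hoffman's conjecture and indices with few entries equal to three

Let `C_{k,d}` be the set of the compositions of `k` with entries in `{2, 3}` and at most `d` entries
equal to `3`, and `H_{k,d}` the family of their multiple zeta values. Assume given elements of an
algebra with the properties of the motivic multiple zeta values of the words in `2`, `3`. Then the
following are equivalent.

1. The family `H_{k,k}` is linearly independent for all `k` (Hoffman's conjecture).
2. For every `d` there are arbitrarily large `k` such that the family `H_{k,d}` is linearly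
   independent.
3. For all `k₀`, `d₀` there are `k ≥ k₀`, `d ≥ d₀` with
   `|C_{k,d}| < dim span H_{k,d} + |C_{k-k₀,d-d₀}|`.
-/

open Module

namespace Pool.Agent.Results.MP_301213_nt.FixedLevel

open Pool.Agent.TH133.MZ

/-- **Hoffman's conjecture holds if and only if for every `d` the family `H_{k,d}` is linearly
independent for arbitrarily large `k`.** -/
theorem result {H : Type*} [CommRing H] [Algebra ℚ H] {v : List ℕ → H} {per : H →ₐ[ℚ] ℝ}
    (h : IsLevelModel v per) :
    List.TFAE [
      ∀ k : ℕ, IndepHoffman k k,
      ∀ d N : ℕ, ∃ k : ℕ, N ≤ k ∧ IndepHoffman k d,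
      ∀ k₀ d₀ : ℕ, ∃ k d : ℕ, k₀ ≤ k ∧ d₀ ≤ d ∧ Nat.card (Ckd k d) <
        finrank ℚ (Submodule.span ℚ (zetaInc '' Ckd k d)) +
          Nat.card (Ckd (k - k₀) (d - d₀))] :=
  level_tfae h

end Pool.Agent.Results.MP_301213_nt.FixedLevel
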